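import Pool.Agent.W957.CH.Stm2

/-! Project CH (MP_d275fd_co, S11629): task CH-WLOC. -/

set_option autoImplicit false

namespace Pool.Agent.W74.CH

open Finset Pool.Agent.W957.CH

section Lad

variable {V : Type} [DecidableEq V] {X : Cx V} {n : ℕ} {c : ℕ → V} {τ N : ℕ}
  {x y : ℕ → ℕ} {K : ℕ → Finset V}

theorem x_mono (h : Lad X n c τ N x y K) : ∀ r s, r ≤ s → s ≤ N → x r ≤ x s := by
  intro r s hrs
  induction s with
  | zero =>
    intro _
    have : r = 0 := by omega
    rw [this]
  | succ s ih =>
    intro hs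
    rcases Nat.lt_or_ge r (s + 1) with h1 | h1
    · have h2 := ih (by omega) (by omega)
      have h3 := h.xi s (by omega)
      omega
    · have : r = s + 1 := by omega
      rw [this]

theorem y_anti (h : Lad X n c τ N x y K) : ∀ r s, r ≤ s → s ≤ N → y s ≤ y r := by
  intro r s hrs
  induction s with
  | zero =>
    intro _
    have : r = 0 := by omega
    rw [this]
  | succ s ih =>
    intro hs
    rcases Nat.lt_or_ge r (s + 1) with h1 | h1
    · have h2 := ih (by omega) (by omega)
      have h3 := h.yd s (by omega)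
      omega
    · have : r = s + 1 := by omega
      rw [this]

end Lad

theorem t_WLOC (h1 : S_4A) (h2 : S_4C) : S_WLOC := by
  intro V _ X n c τ σ N x y K r s i j M hS hL hrs hsN hi hM hMi hMj hj
  have x0r := x_mono hL 0 r (by omega) (by omega)
  have xrs := x_mono hL r s (by omega) (by omega)
  have xsN := x_mono hL s N (by omega) (by omega)
  have y0r := y_anti hL 0 r (by omega) (by omega)
  have yrs := y_anti hL r s (by omega) (by omega)
  have ysN := y_anti hL s N (by omega) (by omega)
  have hxy := hL.xy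
  have hsx := hL.sx
  have hsy := hL.sy
  obtain ⟨kr, krx, kry⟩ := hL.K r (by omega)
  obtain ⟨ks, ksx, ksy⟩ := hL.K s (by omega)
  -- no component other than close ones
  have A : ∀ (a b : ℕ) (P : Finset V), a < b → ((x 0 ≤ a ∧ b ≤ x N) ∨ (y N ≤ a ∧ b ≤ y 0)) →
      Comp X n c P → At X c P a → At X c P b → b - a + 1 ≤ τ := by
    intro a b P hab hh hP ha hb
    rcases hh with ⟨u1, u2⟩ | ⟨u1, u2⟩
    · exact h1 V X n c τ σ a b P hS hab (by omega)
        (fun p p1 p2 => hL.cx p (by omega) (by omega)) hP ha hb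
    · exact h1 V X n c τ σ a b P hS hab (by omega)
        (fun p p1 p2 => hL.cy p (by omega) (by omega)) hP ha hb
  have B : ∀ (i1 i2 j1 j2 : ℕ) (K1 K2 : Finset V), i1 < i2 → j1 < j2 → x 0 ≤ i1 → i2 ≤ x N →
      y N ≤ j1 → j2 ≤ y 0 → Comp X n c K1 → Comp X n c K2 → At X c K1 i1 → At X c K1 j1 →
      At X c K2 i2 → At X c K2 j2 → i2 - i1 + 1 ≤ τ ∧ j2 - j1 + 1 ≤ τ := by
    intro i1 i2 j1 j2 K1 K2 g1 g2 g3 g4 g5 g6 g7 g8 g9 g10 g11 g12
    by_cases hne : K1 = K2
    · subst hne
      exact ⟨A i1 i2 K1 g1 (Or.inl ⟨g3, g4⟩) g7 g9 g11, A j1 j2 K1 g2 (Or.inr ⟨g5, g6⟩) g7 g10 g12⟩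
    · have := h2 V X n c τ σ i1 i2 j1 j2 K1 K2 hS g1 (by omega) g2 (by omega)
        (fun p p1 p2 => hL.cx p (by omega) (by omega))
        (fun p p1 p2 => hL.cy p (by omega) (by omega)) g7 g8 hne g9 g10 g11 g12
      omega
  unfold win at hi
  rw [mem_union, mem_Ioo, mem_Ioo] at hi
  rcases hi with ⟨i1, i2⟩ | ⟨i1, i2⟩
  · rcases hj with ⟨j1, j2⟩ | ⟨j1, j2⟩
    · left
      rcases lt_trichotomy i j with hlt | heq | hgt
      · have := A i j M hlt (Or.inl ⟨by omega, by omega⟩) hM hMi hMj
        omega
      · omega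
      · have := A j i M hgt (Or.inl ⟨by omega, by omega⟩) hM hMj hMi
        omega
    · right
      refine ⟨?_, ?_, j1⟩
      · by_contra hcon
        have := B i (x s) j (y s) M (K s) i2 (by omega) (by omega) (by omega) (by omega)
          (by omega) hM ks hMi hMj ksx ksy
        omega
      · by_contra hcon
        have := B (x r) i (y r) j (K r) M i1 (by omega) (by omega) (by omega) (by omega)
          (by omega) kr hM krx kry hMi hMj
        omega
  · rcases hj with ⟨j1, j2⟩ | ⟨j1, j2⟩
    · left
      refine ⟨?_, ?_, j2⟩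
      · by_contra hcon
        have := B j (x r) i (y r) M (K r) (by omega) i2 (by omega) (by omega) (by omega)
          (by omega) hM kr hMj hMi krx kry
        omega
      · by_contra hcon
        have := B (x s) j (y s) i (K s) M (by omega) i1 (by omega) (by omega) (by omega)
          (by omega) ks hM ksx ksy hMj hMi
        omega
    · right
      rcases lt_trichotomy i j with hlt | heq | hgt
      · have := A i j M hlt (Or.inr ⟨by omega, by omega⟩) hM hMi hMj
        omega
      · omega
      · have := A j i M hgt (Or.inr ⟨by omega, by omega⟩) hM hMj hMi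
        omega

end Pool.Agent.W74.CH
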